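import Mathlib

set_option autoImplicit false

namespace Pool.Agent.PermClos

section
variable {F : Type*} [Field F] {Ω : Type*} [Fintype Ω] [DecidableEq Ω]

/-- The standard symmetric bilinear form. -/
noncomputable def Bf : LinearMap.BilinForm F (Ω → F) := Matrix.toBilin' (1 : Matrix Ω Ω F)

lemma Bf_apply (f g : Ω → F) : Bf f g = ∑ x, f x * g x := by
  unfold Bf
  rw [Matrix.toBilin'_apply']
  simp [dotProduct]

lemma Bf_symm (f g : Ω → F) : Bf f g = Bf g f := by
  rw [Bf_apply, Bf_apply]
  exact Finset.sum_congr rfl fun x _ => mul_comm _ _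

lemma Bf_refl : (Bf : LinearMap.BilinForm F (Ω → F)).IsRefl := by
  intro f g h
  rw [Bf_symm]
  exact h

lemma Bf_perm (τ : Equiv.Perm Ω) (f g : Ω → F) :
    Bf (fun x => f (τ x)) (fun x => g (τ x)) = Bf f g := by
  rw [Bf_apply, Bf_apply]
  exact Equiv.sum_comp τ (fun x => f x * g x)

/-- Sums of squares vanish only trivially. -/
def Aniso (F : Type*) [Field F] : Prop :=
  ∀ (n : ℕ) (f : Fin n → F), ∑ i, f i ^ 2 = 0 → ∀ i, f i = 0

lemma Bf_aniso (hF : Aniso F) (f : Ω → F) (h : Bf f f = 0) : f = 0 := by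
  rw [Bf_apply] at h
  have e := Fintype.equivFin Ω
  have h1 := hF (Fintype.card Ω) (fun i => f (e.symm i)) (by
    rw [← h]
    have := Equiv.sum_comp e.symm (fun x => f x * f x)
    rw [← this]
    exact Finset.sum_congr rfl fun i _ => by ring)
  funext x
  have h2 := h1 (e x)
  rw [Equiv.symm_apply_apply] at h2
  exact h2

lemma isCompl_orth (hF : Aniso F) (W : Submodule F (Ω → F)) : IsCompl W (Bf.orthogonal W) := by
  rw [LinearMap.BilinForm.isCompl_orthogonal_iff_disjoint Bf_refl, Submodule.disjoint_def]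
  intro f hf hf'
  rw [LinearMap.BilinForm.mem_orthogonal_iff] at hf'
  exact Bf_aniso hF f (hf' f hf)

/-- Commuting with all the invariant symmetric matrices implies preserving all the invariant
subspaces. -/
theorem mem_of_comm (hF : Aniso F) (G : Subgroup (Equiv.Perm Ω)) (σ : Equiv.Perm Ω)
    (hσ : ∀ M : Matrix Ω Ω F, (∀ x y, M x y = M y x) →
      (∀ g ∈ G, ∀ x y, M (g x) (g y) = M x y) → ∀ x y, M (σ x) (σ y) = M x y)
    (W : Submodule F (Ω → F)) (hW : ∀ g ∈ G, ∀ f ∈ W, (fun x => f (g x)) ∈ W) :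
    ∀ f ∈ W, (fun x => f (σ x)) ∈ W := by
  have hc := isCompl_orth hF W
  obtain ⟨P, hP⟩ : ∃ P : (Ω → F) →ₗ[F] (Ω → F), ∀ u ∈ W, ∀ v ∈ Bf.orthogonal W, P (u + v) = u := by
    refine ⟨W.projection (Bf.orthogonal W) hc, fun u hu v hv => ?_⟩
    rw [map_add]
    have h1 := Submodule.projection_apply_left hc ⟨u, hu⟩
    have h2 : W.projection (Bf.orthogonal W) hc v = 0 :=
      (Submodule.projection_apply_eq_zero_iff hc).2 hv
    rw [h2, add_zero]
    exact h1
  have hdec : ∀ f : Ω → F, ∃ u ∈ W, ∃ v ∈ Bf.orthogonal W, f = u + v := by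
    intro f
    have h1 : f ∈ W ⊔ Bf.orthogonal W := by rw [hc.sup_eq_top]; exact Submodule.mem_top
    obtain ⟨u, hu, v, hv, h2⟩ := Submodule.mem_sup.1 h1
    exact ⟨u, hu, v, hv, h2.symm⟩
  have hO : ∀ v ∈ Bf.orthogonal W, ∀ u ∈ W, Bf u v = 0 := by
    intro v hv u hu
    exact (LinearMap.BilinForm.mem_orthogonal_iff.1 hv) u hu
  have hPs : ∀ f g : Ω → F, Bf f (P g) = Bf (P f) g := by
    intro f g
    obtain ⟨u, hu, v, hv, rfl⟩ := hdec f
    obtain ⟨u', hu', v', hv', rfl⟩ := hdec g
    rw [hP u hu v hv, hP u' hu' v' hv', map_add, map_add, LinearMap.add_apply, hO v' hv' u hu,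
      Bf_symm v u', hO v hv u' hu']
  have hOi : ∀ g ∈ G, ∀ v ∈ Bf.orthogonal W, (fun x => v (g x)) ∈ Bf.orthogonal W := by
    intro g hg v hv
    rw [LinearMap.BilinForm.mem_orthogonal_iff]
    intro u hu
    have h1 := hW g⁻¹ (G.inv_mem hg) u hu
    have h2 := hO v hv _ h1
    have h3 := Bf_perm g (fun x => u (g⁻¹ x)) v
    have h4 : (fun x => (fun x => u (g⁻¹ x)) (g x)) = u := by
      funext x
      simp
    rw [h4] at h3
    change Bf u (fun x => v (g x)) = 0
    rw [h3]
    exact h2
  have hPG : ∀ g ∈ G, ∀ f : Ω → F, P (fun x => f (g x)) = fun x => (P f) (g x) := by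
    intro g hg f
    obtain ⟨u, hu, v, hv, rfl⟩ := hdec f
    have h1 : (fun x => (u + v) (g x)) = (fun x => u (g x)) + (fun x => v (g x)) := rfl
    rw [h1, hP _ (hW g hg u hu) _ (hOi g hg v hv), hP u hu v hv]
  let M : Matrix Ω Ω F := fun x y => P (Pi.single y 1) x
  have hM : ∀ x y, M x y = Bf (Pi.single x 1) (P (Pi.single y 1)) := by
    intro x y
    rw [Bf_apply]
    simp [Pi.single_apply, M]
  have hsingle : ∀ (τ : Equiv.Perm Ω) (y : Ω),
      (fun x => (Pi.single (τ y) (1 : F) : Ω → F) (τ x)) = Pi.single y 1 := by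
    intro τ y
    funext x
    by_cases hx : x = y
    · subst hx; simp
    · rw [Pi.single_eq_of_ne hx, Pi.single_eq_of_ne]
      exact fun h => hx (τ.injective h)
  have hMs : ∀ x y, M x y = M y x := by
    intro x y
    rw [hM, hM, hPs, Bf_symm]
  have hMG : ∀ g ∈ G, ∀ x y, M (g x) (g y) = M x y := by
    intro g hg x y
    have h1 := hPG g hg (Pi.single (g y) 1)
    rw [hsingle] at h1
    exact (congrFun h1 x).symm
  have hMσ := hσ M hMs hMG
  have hPM : ∀ (f : Ω → F) (x : Ω), (P f) x = ∑ y, M x y * f y := by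
    intro f x
    have hf : f = ∑ y, f y • (Pi.single y (1 : F) : Ω → F) := by
      funext z
      simp [Finset.sum_apply, Pi.single_apply]
    conv_lhs => rw [hf]
    rw [map_sum, Finset.sum_apply]
    refine Finset.sum_congr rfl fun y _ => ?_
    rw [map_smul, Pi.smul_apply, smul_eq_mul, mul_comm]
  intro f hf
  have h0 : P f = f := by
    have := hP f hf 0 (Submodule.zero_mem _)
    rwa [add_zero] at this
  have h1 : P (fun x => f (σ x)) = fun x => f (σ x) := by
    funext x
    rw [hPM]
    have h2 := hPM f (σ x)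
    rw [h0] at h2
    rw [h2, ← Equiv.sum_comp σ (fun y => M (σ x) y * f y)]
    exact Finset.sum_congr rfl fun y _ => by rw [hMσ]
  obtain ⟨u, hu, v, hv, h3⟩ := hdec (fun x => f (σ x))
  rw [h3, hP u hu v hv] at h1
  rw [h3, ← h1]
  exact hu

/-- Preserving all the invariant subspaces implies commuting with all the invariant symmetric
matrices, if their characteristic polynomials split. -/
theorem comm_of_mem (hF : Aniso F)
    (hs : ∀ M : Matrix Ω Ω F, (∀ x y, M x y = M y x) → M.charpoly.Splits)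
    (G : Subgroup (Equiv.Perm Ω)) (σ : Equiv.Perm Ω)
    (hσ : ∀ W : Submodule F (Ω → F), (∀ g ∈ G, ∀ f ∈ W, (fun x => f (g x)) ∈ W) →
      ∀ f ∈ W, (fun x => f (σ x)) ∈ W)
    (M : Matrix Ω Ω F) (hM : ∀ x y, M x y = M y x)
    (hG : ∀ g ∈ G, ∀ x y, M (g x) (g y) = M x y) : ∀ x y, M (σ x) (σ y) = M x y := by
  let T : Module.End F (Ω → F) := Matrix.toLin' M
  have hT : ∀ (f : Ω → F) (x : Ω), T f x = ∑ y, M x y * f y := by
    intro f x
    simp [T, Matrix.mulVec, dotProduct]
  have hTG : ∀ g ∈ G, ∀ f : Ω → F, T (fun x => f (g x)) = fun x => (T f) (g x) := by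
    intro g hg f
    funext x
    rw [hT, hT, ← Equiv.sum_comp g (fun y => M (g x) y * f y)]
    exact Finset.sum_congr rfl fun y _ => by rw [hG g hg]
  have hTs : ∀ f g : Ω → F, Bf (T f) g = Bf f (T g) := by
    intro f g
    rw [Bf_apply, Bf_apply]
    simp_rw [hT, Finset.sum_mul, Finset.mul_sum]
    rw [Finset.sum_comm]
    refine Finset.sum_congr rfl fun y _ => Finset.sum_congr rfl fun x _ => ?_
    rw [hM x y]
    ring
  have hσe : ∀ μ : F, ∀ f ∈ Module.End.eigenspace T μ,
      (fun x => f (σ x)) ∈ Module.End.eigenspace T μ := by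
    intro μ
    apply hσ
    intro g hg f hf
    rw [Module.End.mem_eigenspace_iff] at hf ⊢
    rw [hTG g hg, hf]
    rfl
  have htop : (⨆ μ : F, Module.End.eigenspace T μ) = ⊤ := by
    set W : Submodule F (Ω → F) := ⨆ μ : F, Module.End.eigenspace T μ with hWdef
    have hc := isCompl_orth hF W
    have hWT : ∀ f ∈ W, T f ∈ W := by
      intro f hf
      refine Submodule.iSup_induction _ (motive := fun f => T f ∈ W) hf ?_ ?_ ?_
      · intro μ f hf
        rw [Module.End.mem_eigenspace_iff.1 hf]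
        exact W.smul_mem _ (le_iSup (fun μ => Module.End.eigenspace T μ) μ hf)
      · rw [map_zero]; exact W.zero_mem
      · intro a b ha hb
        rw [map_add]; exact W.add_mem ha hb
    have hOT : ∀ f ∈ Bf.orthogonal W, T f ∈ Bf.orthogonal W := by
      intro f hf
      rw [LinearMap.BilinForm.mem_orthogonal_iff] at hf ⊢
      intro u hu
      change Bf u (T f) = 0
      rw [← hTs]
      exact hf _ (hWT u hu)
    have hbot : Bf.orthogonal W = ⊥ := by
      by_contra hne
      have hnt : Nontrivial (Bf.orthogonal W) := Submodule.nontrivial_iff_ne_bot.2 hne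
      let T' : Module.End F (Bf.orthogonal W) := T.restrict hOT
      have hae : Polynomial.aeval T' M.charpoly = 0 := by
        have h1 : Polynomial.aeval T M.charpoly = 0 := by
          have := Matrix.aeval_self_charpoly M
          have h2 : Polynomial.aeval T M.charpoly =
              Matrix.toLin' (Polynomial.aeval M M.charpoly) := by
            have := Polynomial.aeval_algHom_apply (Matrix.toLinAlgEquiv' (R := F) (n := Ω)).toAlgHom
              M M.charpoly
            exact this
          rw [h2, this, map_zero]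
        have h3 : ∀ (p : Polynomial F) (v : Bf.orthogonal W),
            ((Polynomial.aeval T' p v : Bf.orthogonal W) : Ω → F) =
              Polynomial.aeval T p (v : Ω → F) := by
          intro p v
          have hpow : ∀ (n : ℕ) (v : Bf.orthogonal W),
              (((T' ^ n) v : Bf.orthogonal W) : Ω → F) = (T ^ n) (v : Ω → F) := by
            intro n
            induction n with
            | zero => intro v; rfl
            | succ n ih =>
              intro v
              rw [pow_succ, pow_succ, Module.End.mul_apply, Module.End.mul_apply, ih]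
              rfl
          induction p using Polynomial.induction_on' with
          | add p q hp hq =>
            rw [map_add, map_add, LinearMap.add_apply, LinearMap.add_apply, Submodule.coe_add,
              hp, hq]
          | monomial n a =>
            rw [Polynomial.aeval_monomial, Polynomial.aeval_monomial, Module.End.mul_apply,
              Module.End.mul_apply, ← hpow]
            rfl
        refine LinearMap.ext fun v => Subtype.ext ?_
        rw [h3, h1]
        rfl
      have hdvd : minpoly F T' ∣ M.charpoly := minpoly.dvd F T' hae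
      have hsp : (minpoly F T').Splits :=
        (hs M hM).of_dvd (Matrix.charpoly_monic M).ne_zero hdvd
      have hdeg : (minpoly F T').degree ≠ 0 := by
        exact (minpoly.degree_pos (Algebra.IsIntegral.isIntegral T')).ne'
      obtain ⟨μ, hμ⟩ := hsp.exists_eval_eq_zero hdeg
      have hev : Module.End.HasEigenvalue T' μ := Module.End.hasEigenvalue_of_isRoot hμ
      obtain ⟨v, hv, hv0⟩ := hev.exists_hasEigenvector
      rw [Module.End.mem_eigenspace_iff] at hv
      have h4 : T (v : Ω → F) = μ • (v : Ω → F) := congrArg Subtype.val hv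
      have h5 : (v : Ω → F) ∈ W :=
        le_iSup (fun μ => Module.End.eigenspace T μ) μ (Module.End.mem_eigenspace_iff.2 h4)
      have h6 : (v : Ω → F) ∈ W ⊓ Bf.orthogonal W := ⟨h5, v.2⟩
      rw [hc.inf_eq_bot, Submodule.mem_bot] at h6
      exact hv0 (Subtype.ext h6)
    have h7 := hc.sup_eq_top
    rw [hbot, sup_bot_eq] at h7
    exact h7
  have hcomm : ∀ f : Ω → F, T (fun x => f (σ x)) = fun x => (T f) (σ x) := by
    intro f
    have hf : f ∈ ⨆ μ : F, Module.End.eigenspace T μ := by rw [htop]; exact Submodule.mem_top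
    refine Submodule.iSup_induction _
      (motive := fun f : Ω → F => T (fun x => f (σ x)) = fun x => (T f) (σ x)) hf ?_ ?_ ?_
    · intro μ f hf
      rw [Module.End.mem_eigenspace_iff.1 (hσe μ f hf), Module.End.mem_eigenspace_iff.1 hf]
      rfl
    · have h1 : (fun x => (0 : Ω → F) (σ x)) = 0 := rfl
      rw [h1, map_zero]
      rfl
    · intro a b ha hb
      have h1 : (fun x => (a + b) (σ x)) = (fun x => a (σ x)) + (fun x => b (σ x)) := rfl
      rw [h1, map_add, ha, hb, map_add]
      rfl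
  intro x y
  have h5 := congrFun (hcomm (Pi.single (σ y) 1)) x
  have h6 : (fun z => (Pi.single (σ y) (1 : F) : Ω → F) (σ z)) = Pi.single y 1 := by
    funext z
    by_cases hz : z = y
    · subst hz; simp
    · rw [Pi.single_eq_of_ne hz, Pi.single_eq_of_ne]
      exact fun h => hz (σ.injective h)
  rw [h6, hT, hT] at h5
  simpa [Pi.single_apply] using h5.symm

open Classical in
/-- The equality, in terms of functions. -/
theorem core_mp (hF : Aniso F)
    (hs : ∀ M : Matrix Ω Ω F, (∀ x y, M x y = M y x) → M.charpoly.Splits)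
    (G : Subgroup (Equiv.Perm Ω)) (σ : Equiv.Perm Ω)
    (hσ : ∀ W : Submodule F (Ω → F), (∀ g ∈ G, ∀ f ∈ W, (fun x => f (g x)) ∈ W) →
      ∀ f ∈ W, (fun x => f (σ x)) ∈ W) (a b : Ω) :
    ∃ g ∈ G, ({g a, g b} : Set Ω) = {σ a, σ b} := by
  let M : Matrix Ω Ω F := fun x y => if ∃ g ∈ G, ({g a, g b} : Set Ω) = {x, y} then 1 else 0
  have hMs : ∀ x y, M x y = M y x := by
    intro x y
    simp only [M]
    rw [Set.pair_comm x y]
  have hG : ∀ g ∈ G, ∀ x y, M (g x) (g y) = M x y := by
    intro g hg x y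
    have : (∃ h ∈ G, ({h a, h b} : Set Ω) = {g x, g y}) ↔
        (∃ h ∈ G, ({h a, h b} : Set Ω) = {x, y}) := by
      constructor
      · rintro ⟨h, hh, he⟩
        refine ⟨g⁻¹ * h, G.mul_mem (G.inv_mem hg) hh, ?_⟩
        have := congrArg (fun s : Set Ω => (g⁻¹ : Equiv.Perm Ω) '' s) he
        simpa [Set.image_pair] using this
      · rintro ⟨h, hh, he⟩
        refine ⟨g * h, G.mul_mem hg hh, ?_⟩
        have := congrArg (fun s : Set Ω => (g : Equiv.Perm Ω) '' s) he
        simpa [Set.image_pair] using this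
    simp only [M, this]
  have h := comm_of_mem hF hs G σ hσ M hMs hG a b
  have hab1 : M a b = 1 := by
    simp only [M]
    rw [if_pos]
    exact ⟨1, G.one_mem, by simp⟩
  rw [hab1] at h
  by_contra hne
  simp only [M] at h
  rw [if_neg hne] at h
  exact zero_ne_one h

theorem core_mpr (hF : Aniso F) (hcard : 3 ≤ Fintype.card Ω)
    (G : Subgroup (Equiv.Perm Ω)) (σ : Equiv.Perm Ω)
    (hσ : ∀ a b : Ω, a ≠ b → ∃ g ∈ G, ({g a, g b} : Set Ω) = {σ a, σ b}) :
    ∀ W : Submodule F (Ω → F), (∀ g ∈ G, ∀ f ∈ W, (fun x => f (g x)) ∈ W) →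
      ∀ f ∈ W, (fun x => f (σ x)) ∈ W := by
  have hpt : ∀ x : Ω, ∃ g ∈ G, g x = σ x := by
    intro x
    have h1 : ∃ y z : Ω, x ≠ y ∧ x ≠ z ∧ y ≠ z := by
      have h2 : 2 < (Finset.univ : Finset Ω).card := by
        rw [Finset.card_univ]; omega
      have h3 : 1 < ((Finset.univ : Finset Ω).erase x).card := by
        rw [Finset.card_erase_of_mem (Finset.mem_univ x)]; omega
      obtain ⟨y, hy, z, hz, hyz⟩ := Finset.one_lt_card.mp h3
      exact ⟨y, z, (Finset.ne_of_mem_erase hy).symm, (Finset.ne_of_mem_erase hz).symm, hyz⟩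
    obtain ⟨y, z, hxy, hxz, hyz⟩ := h1
    have split : ∀ u v : Ω, u ≠ v → ∃ g ∈ G, (g u = σ u ∧ g v = σ v) ∨ (g u = σ v ∧ g v = σ u) := by
      intro u v huv
      obtain ⟨g, hg, he⟩ := hσ u v huv
      refine ⟨g, hg, ?_⟩
      rcases Set.pair_eq_pair_iff.mp he with h | h
      · exact Or.inl h
      · exact Or.inr h
    obtain ⟨g, hg, hg'⟩ := split x y hxy
    rcases hg' with ⟨h1, _⟩ | ⟨h1, h2⟩
    · exact ⟨g, hg, h1⟩
    obtain ⟨h, hh, hh'⟩ := split x z hxz
    rcases hh' with ⟨h3, _⟩ | ⟨h3, h4⟩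
    · exact ⟨h, hh, h3⟩
    obtain ⟨k, hk, hk'⟩ := split y z hyz
    rcases hk' with ⟨h5, _⟩ | ⟨h5, h6⟩
    · refine ⟨g * k⁻¹ * g, G.mul_mem (G.mul_mem hg (G.inv_mem hk)) hg, ?_⟩
      simp only [Equiv.Perm.coe_mul, Function.comp_apply]
      rw [h1, ← h5]
      simp [h2]
    · refine ⟨g * k⁻¹ * h, G.mul_mem (G.mul_mem hg (G.inv_mem hk)) hh, ?_⟩
      simp only [Equiv.Perm.coe_mul, Function.comp_apply]
      rw [h3, ← h5]
      simp [h2]
  intro W hW
  apply mem_of_comm hF G σ _ W hW
  intro M hMs hG x y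
  by_cases hxy : x = y
  · subst hxy
    obtain ⟨g, hg, he⟩ := hpt x
    rw [← he]
    exact hG g hg x x
  · obtain ⟨g, hg, he⟩ := hσ x y hxy
    rcases Set.pair_eq_pair_iff.mp he with ⟨h1, h2⟩ | ⟨h1, h2⟩
    · rw [← h1, ← h2]; exact hG g hg x y
    · rw [← h1, ← h2, hMs]; exact hG g hg x y

end

/-! ### The definitions of the problem -/

/-- The permutation of the basis vectors of the permutation module `F Ω`. -/
noncomputable def act (F : Type*) [Field F] {Ω : Type*} (g : Equiv.Perm Ω) :
    (Ω →₀ F) →ₗ[F] (Ω →₀ F) := Finsupp.lmapDomain F F g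

/-- The `F`-closure of `G`: the permutations `σ` with `W σ = W` for every `F G`-submodule `W` of
the permutation module `F Ω`. -/
def FClosure (F : Type*) [Field F] {Ω : Type*} (G : Subgroup (Equiv.Perm Ω)) :
    Set (Equiv.Perm Ω) :=
  {σ | ∀ W : Submodule F (Ω →₀ F), (∀ g ∈ G, ∀ w ∈ W, act F g w ∈ W) → W.map (act F σ) = W}

/-- The `G`-orbit of the 2-subset `{a, b}`. -/
def pairOrbit {Ω : Type*} (G : Subgroup (Equiv.Perm Ω)) (a b : Ω) : Set (Set Ω) :=
  {s | ∃ g ∈ G, s = {g a, g b}}

/-- The strong 2-closure of `G`: the permutations which map each `G`-orbit on the 2-subsets onto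
itself. -/
def StrongTwoClosure {Ω : Type*} (G : Subgroup (Equiv.Perm Ω)) : Set (Equiv.Perm Ω) :=
  {σ | ∀ a b : Ω, a ≠ b → (fun s : Set Ω => σ '' s) '' pairOrbit G a b = pairOrbit G a b}

lemma mem_strong {Ω : Type*} [Finite Ω] (G : Subgroup (Equiv.Perm Ω)) (σ : Equiv.Perm Ω) :
    σ ∈ StrongTwoClosure G ↔
      ∀ a b : Ω, a ≠ b → ∃ g ∈ G, ({g a, g b} : Set Ω) = {σ a, σ b} := by
  constructor
  · intro h a b hab
    have h1 : ({σ a, σ b} : Set Ω) ∈ pairOrbit G a b := by
      rw [← h a b hab]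
      exact ⟨{a, b}, ⟨1, G.one_mem, by simp⟩, by simp [Set.image_pair]⟩
    obtain ⟨g, hg, h2⟩ := h1
    exact ⟨g, hg, h2.symm⟩
  · intro h a b hab
    have hsub : (fun s : Set Ω => σ '' s) '' pairOrbit G a b ⊆ pairOrbit G a b := by
      rintro _ ⟨s, ⟨g, hg, rfl⟩, rfl⟩
      obtain ⟨k, hk, h1⟩ := h (g a) (g b) (fun h => hab (g.injective h))
      exact ⟨k * g, G.mul_mem hk hg, by simp [Set.image_pair, h1]⟩
    have hinj : Function.Injective (fun s : Set Ω => σ '' s) := σ.injective.image_injective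
    exact Set.eq_of_subset_of_ncard_le hsub (by rw [Set.ncard_image_of_injective _ hinj])
      (Set.toFinite _)

lemma act_apply (F : Type*) [Field F] {Ω : Type*} (g : Equiv.Perm Ω) (w : Ω →₀ F) (x : Ω) :
    act F g w (g x) = w x :=
  Finsupp.mapDomain_apply g.injective w x

lemma mem_FClosure (F : Type*) [Field F] {Ω : Type*} [Finite Ω] (G : Subgroup (Equiv.Perm Ω))
    (σ : Equiv.Perm Ω) :
    σ ∈ FClosure F G ↔
      ∀ W : Submodule F (Ω → F), (∀ g ∈ G, ∀ f ∈ W, (fun x => f (g x)) ∈ W) →
        ∀ f ∈ W, (fun x => f (σ x)) ∈ W := by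
  have := Fintype.ofFinite Ω
  let e : (Ω →₀ F) ≃ₗ[F] (Ω → F) := Finsupp.linearEquivFunOnFinite F F Ω
  have he : ∀ (w : Ω →₀ F) (x : Ω), e w x = w x := fun _ _ => rfl
  have hact : ∀ (g : Equiv.Perm Ω) (w : Ω →₀ F), (fun x => e (act F g w) (g x)) = e w := by
    intro g w
    funext x
    rw [he, he, act_apply]
  have hact' : ∀ (g : Equiv.Perm Ω) (w : Ω →₀ F),
      e (act F g⁻¹ w) = fun x => e w (g x) := by
    intro g w
    funext x
    rw [he, he]
    have h1 := act_apply F g⁻¹ w (g x)
    simpa using h1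
  constructor
  · intro h W hW f hf
    let W' : Submodule F (Ω →₀ F) := W.comap e.toLinearMap
    have h1 : ∀ g ∈ G, ∀ w ∈ W', act F g w ∈ W' := by
      intro g hg w hw
      have h2 := hW g⁻¹ (G.inv_mem hg) (e w) hw
      have h3 := hact' g⁻¹ w
      rw [inv_inv] at h3
      change e (act F g w) ∈ W
      rw [h3]
      exact h2
    have h2 := h W' h1
    have h3 : e.symm f ∈ W' := by
      change e (e.symm f) ∈ W
      rw [LinearEquiv.apply_symm_apply]
      exact hf
    rw [← h2] at h3
    obtain ⟨w, hw, h4⟩ := h3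
    have h5 : f = e (act F σ w) := by rw [h4, LinearEquiv.apply_symm_apply]
    have h6 : (fun x => f (σ x)) = e w := by rw [h5]; exact hact σ w
    rw [h6]
    exact hw
  · intro h W hW
    have hinj : Function.Injective (act F σ : (Ω →₀ F) →ₗ[F] (Ω →₀ F)) :=
      Finsupp.mapDomain_injective σ.injective
    have h1 : ∀ g ∈ G, ∀ f ∈ W.map e.toLinearMap, (fun x => f (g x)) ∈ W.map e.toLinearMap := by
      rintro g hg _ ⟨w, hw, rfl⟩
      exact ⟨act F g⁻¹ w, hW _ (G.inv_mem hg) w hw, hact' g w⟩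
    have h2 : W ≤ W.map (act F σ) := by
      intro w hw
      obtain ⟨w', hw', h3⟩ := h _ h1 (e w) ⟨w, hw, rfl⟩
      refine ⟨w', hw', ?_⟩
      apply e.injective
      funext x
      obtain ⟨y, rfl⟩ := σ.surjective x
      have h4 := congrFun (hact σ w') y
      have h5 := congrFun h3 y
      exact h4.trans h5
    exact (Submodule.eq_of_le_of_finrank_le h2 (Submodule.finrank_map_le _ _)).symm

/-- The equality over every field in which sums of squares vanish only trivially and in which the
characteristic polynomials of the symmetric matrices split. -/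
theorem closure_eq (F : Type*) [Field F] (hF : Aniso F)
    (hs : ∀ (n : ℕ) (M : Matrix (Fin n) (Fin n) F), M.transpose = M → M.charpoly.Splits)
    (Ω : Type*) [Finite Ω] (hcard : 3 ≤ Nat.card Ω) (G : Subgroup (Equiv.Perm Ω)) :
    FClosure F G = StrongTwoClosure G := by
  classical
  have := Fintype.ofFinite Ω
  rw [Nat.card_eq_fintype_card] at hcard
  ext σ
  rw [mem_strong, mem_FClosure]
  constructor
  · intro h a b _
    refine core_mp hF (fun M hM => ?_) G σ h a b
    let e := Fintype.equivFin Ω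
    have h1 := hs _ (Matrix.reindex e e M) (by
      ext i j
      simp [hM])
    rwa [Matrix.charpoly_reindex] at h1
  · exact core_mpr hF hcard G σ

theorem strong_sub (F : Type*) [Field F] (hF : Aniso F)
    (Ω : Type*) [Finite Ω] (hcard : 3 ≤ Nat.card Ω) (G : Subgroup (Equiv.Perm Ω)) :
    StrongTwoClosure G ⊆ FClosure F G := by
  classical
  have := Fintype.ofFinite Ω
  rw [Nat.card_eq_fintype_card] at hcard
  intro σ
  rw [mem_strong, mem_FClosure]
  exact core_mpr hF hcard G σ

theorem aniso_of_ordered (F : Type*) [Field F] [LinearOrder F] [IsStrictOrderedRing F] :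
    Aniso F := by
  intro n f h i
  have h1 := (Finset.sum_eq_zero_iff_of_nonneg (fun i _ => sq_nonneg (f i))).1 h i
    (Finset.mem_univ i)
  exact pow_eq_zero_iff (two_ne_zero) |>.1 h1

theorem real_splits (n : ℕ) (M : Matrix (Fin n) (Fin n) ℝ) (hM : M.transpose = M) :
    M.charpoly.Splits := by
  have hH : M.IsHermitian := by
    rw [Matrix.IsHermitian, Matrix.conjTranspose_eq_transpose_of_trivial]
    exact hM
  exact hH.splits_charpoly

end Pool.Agent.PermClos
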